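import Mathlib
import Pool.Agent.H374R2.CofC
import Pool.Agent.V11265.DK.Desc

/-!
# Extensions of `{1, 2 k ^ 2, 2 k ^ 2 + 2 k + 1}`: almost all `k`

If `T_k = {1, 2 k², 2 k² + 2 k + 1}` has an extension to a `D(-k²)`-quadruple, then `3` is a square
modulo `2 k + 1`; hence `2 k + 1` has no prime factor `≡ 5, 7` modulo `12` and is not divisible by
`9`. The `k` with an extension have natural density `0`.

Proof. An extension `d` gives `2 d - 1 = y²`, `y` odd, and with `m = 2 k + 1` a solution of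
`Z² = (m² + 1) y² + 2 m`. Multiplication by the unit `2 m² + 1 + 2 m √(m² + 1)` does not change `y`
modulo `2 m`, and descent with it leads to `y = ± 1`. So `y² ≡ 1` modulo `m`, and
`4 (d - k²) = 2 y² + 2 - (m - 1)² ≡ 3` modulo `m` has to be a square.
-/

set_option autoImplicit false

namespace Pool.Agent.Results.MP_a79b85_nt.AlmostAllK

open Filter Topology

/-- `d` extends `T_k` to a `D(-k²)`-quadruple -/
def Extends (k d : ℤ) : Prop :=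
  0 < d ∧ d ≠ 1 ∧ d ≠ 2 * k ^ 2 ∧ d ≠ 2 * k ^ 2 + 2 * k + 1 ∧ IsSquare (d - k ^ 2) ∧
    IsSquare (2 * k ^ 2 * d - k ^ 2) ∧ IsSquare ((2 * k ^ 2 + 2 * k + 1) * d - k ^ 2)

/-- (1) If some `d` extends `T_k`, then `3` is a square modulo `2 k + 1`. (2) If `9 ∣ 2 k + 1` or
`2 k + 1` has a prime factor `p ≡ 5` or `7` modulo `12`, then no `d` extends `T_k`. (3) The
proportion of the `k ≤ N` for which some `d` extends `T_k` tends to `0`. -/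
theorem result :
    (∀ k d : ℤ, 1 ≤ k → Extends k d → ∃ s : ℤ, 2 * k + 1 ∣ s ^ 2 - 3) ∧
    (∀ k : ℕ, 1 ≤ k → (9 ∣ 2 * k + 1 ∨ ∃ p : ℕ, p.Prime ∧ p ∣ 2 * k + 1 ∧
        (p % 12 = 5 ∨ p % 12 = 7)) → ¬ ∃ d : ℤ, Extends k d) ∧
    Tendsto (fun N : ℕ => (({k : ℕ | 1 ≤ k ∧ k ≤ N ∧ ∃ d : ℤ, Extends k d}.ncard : ℕ) : ℝ) / N)
      atTop (𝓝 0) := by
  have h1 : ∀ k d : ℤ, 1 ≤ k → Extends k d → ∃ s : ℤ, 2 * k + 1 ∣ s ^ 2 - 3 := by
    rintro k d hk ⟨-, -, -, -, e1, e2, e3⟩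
    exact Pool.Agent.V11265.DK.three_sq k d hk e1 e2 e3
  have h2 : ∀ k : ℕ, 1 ≤ k → (9 ∣ 2 * k + 1 ∨ ∃ p : ℕ, p.Prime ∧ p ∣ 2 * k + 1 ∧
      (p % 12 = 5 ∨ p % 12 = 7)) → ¬ ∃ d : ℤ, Extends k d := by
    rintro k hk h ⟨d, hd⟩
    obtain ⟨s, hs⟩ := h1 k d (by exact_mod_cast hk) hd
    rcases h with h | ⟨p, hp, hpk, hp12⟩
    · have h9 : (9 : ℤ) ∣ s ^ 2 - 3 := by
        refine dvd_trans ?_ hs
        exact_mod_cast h
      have h3 : s % 9 = 0 ∨ s % 9 = 1 ∨ s % 9 = 2 ∨ s % 9 = 3 ∨ s % 9 = 4 ∨ s % 9 = 5 ∨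
        s % 9 = 6 ∨ s % 9 = 7 ∨ s % 9 = 8 := by omega
      have h4 : (s ^ 2 - 3) % 9 = 0 := Int.emod_eq_zero_of_dvd h9
      rcases h3 with h | h | h | h | h | h | h | h | h <;>
        simp [sq, Int.sub_emod, Int.mul_emod, h] at h4
    · refine Pool.Agent.V11265.DK.not_sq hp hp12 (s := s) (dvd_trans ?_ hs)
      exact_mod_cast hpk
  refine ⟨h1, h2, ?_⟩
  have hnull := Pool.Agent.H374R2.Cof.natNull_avoid 12 (by norm_num) 5 (by norm_num)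
  rw [Metric.tendsto_atTop]
  intro ε hε
  obtain ⟨N₀, hN₀⟩ := hnull (ε / 6) (by positivity)
  refine ⟨N₀ + 1, fun N hN => ?_⟩
  have hN1 : (1 : ℝ) ≤ N := by exact_mod_cast (by omega : 1 ≤ N)
  rw [Real.dist_eq, sub_zero, abs_of_nonneg (by positivity), div_lt_iff₀ (by linarith)]
  have h3 := hN₀ (2 * N + 1) (by omega)
  have h4 : {k : ℕ | 1 ≤ k ∧ k ≤ N ∧ ∃ d : ℤ, Extends k d}.ncard ≤
      ({C : ℕ | ∀ p : ℕ, p.Prime → p ≡ 5 [MOD 12] → ¬ p ∣ C} ∩ Set.Ioc 0 (2 * N + 1)).ncard := by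
    apply Set.ncard_le_ncard_of_injOn (fun k => 2 * k + 1)
    · rintro k ⟨hk1, hk2, hk3⟩
      refine ⟨fun p hp hp5 hpk => ?_, ?_⟩
      · refine h2 k hk1 (Or.inr ⟨p, hp, hpk, Or.inl ?_⟩) hk3
        exact hp5
      · simp only [Set.mem_Ioc]
        omega
    · intro a _ b _ hab
      simp only at hab
      omega
  calc (({k : ℕ | 1 ≤ k ∧ k ≤ N ∧ ∃ d : ℤ, Extends k d}.ncard : ℕ) : ℝ) ≤
        ε / 6 * ((2 * N + 1 : ℕ) : ℝ) := le_trans (by exact_mod_cast h4) h3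
    _ ≤ ε / 6 * (3 * N) := by
        gcongr
        push_cast
        linarith
    _ < ε * N := by nlinarith

end Pool.Agent.Results.MP_a79b85_nt.AlmostAllK
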